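import Pool.Agent.H61.KW.TC

/-!
# Kuiper board KW, module R6Z: the rank of `g + z` for all transversal feet `g`
-/

open Topology Set
open Pool.Agent.H59 Pool.Agent.H64.LB Pool.Agent.H61.KU Pool.Agent.H61.KV Pool.Agent.H61.KW

namespace Pool.Agent.H33.KW.R6Z

theorem pf_R6Z (h : T_R5C) (h2 : T_SHP) (h3 : T_CEL4) (h4 : T_LDE) (h5 : T_TTT) : T_R6Z := by
  intro V _ _ _ m kit star q ef ns
  have hC : IsCC (Cn m) := kit.cc
  have hq : q ∈ Cn m := kit.mem q ef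
  obtain ⟨g, tg, rg⟩ := h V m kit star q ef ns
  obtain ⟨a, z, hp, -⟩ := h2 V m q g ⟨kit, star, ef, ns, tg, rg⟩
  refine ⟨a, z, hp, fun f tf => ?_⟩
  have haC : a ∈ Cn m := hp.ds.1
  have hzC : z ∈ Cn m := hp.ds.2.1
  have hz1 : rk (Cn m) z = 1 := ex_rk hC hp.ex
  have hzq : z ∈ Fc (Cn m) q := (face hC hq haC hzC hp.mem).2
  have hzz : z ∈ Fc (Cn m) z := self hC hzC
  have f4 : 4 ≤ rk (Cn m) f := h3 V m kit star q f ef ns tf
  obtain ⟨-, f5, hle, hge, -⟩ := h4 V m kit q f z 0 z ef tf hzq hzz (zero_fc hC hzC)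
    (fun t _ ht => fc_of_zero hC ht)
  rcases f4.eq_or_lt with h44 | h44
  · obtain ⟨a', z', hp', h6⟩ := h2 V m q f ⟨kit, star, ef, ns, tf, h44.symm⟩
    obtain ⟨hz', -, -⟩ := h5 V (Cn m) q a z a' z' hC hq hp hp' ns
    have hz'' : z ∈ Fc (Cn m) z' := ex_symm hC hp.ex hp'.ex hz'
    have hff : f ∈ Fc (Cn m) f := self hC tf.mem
    have he : Fc (Cn m) (f + z') = Fc (Cn m) (f + z) :=
      fc_add_congr hC tf.mem hzC hff hff hz' hz''
    have hr : rk (Cn m) (f + z') = rk (Cn m) (f + z) := by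
      unfold Pool.Agent.H61.KW.rk Sp
      rw [he]
    rw [← hr]
    exact h6
  · omega

end Pool.Agent.H33.KW.R6Z
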